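import Mathlib
import Pool.Agent.H665R3.LamTop
import Pool.Agent.R753.Chains

set_option autoImplicit false

/-!
The combinatorial part: for every tuple of indices a top coordinate in every block, and an order of
the blocks.
-/

namespace Pool.Agent.Run7.h414.HC

open Finset

/-- A top coordinate for every tuple of indices. -/
theorem exists_top_fn {B : Type} [Fintype B] [Nonempty B] (N : B → ℕ) (hN : ∀ j, 2 ≤ N j) :
    ∃ top : (∀ j, Fin (N j)) → B, ∀ S : Finset B, S.Nonempty → ∀ c₀ : ∀ j, Fin (N j),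
      ∃ c : ∀ j, Fin (N j), (∀ i ∈ S, c i = c₀ i) ∧ top c ∈ S := by
  classical
  have : LinearOrder B := LinearOrder.lift' (Fintype.equivFin B) (Fintype.equivFin B).injective
  set sg : (∀ j, Fin (N j)) → B → Bool := fun c j => decide ((c j : ℕ) = 0) with hsg
  have hne : (univ : Finset B).Nonempty := univ_nonempty
  refine ⟨fun c => (Pool.Agent.H665R3.Lam.exists_top hne (sg c)).choose, ?_⟩
  intro S hS c₀
  obtain ⟨σ, hσ1, hσ2⟩ := Pool.Agent.H665R3.Lam.exists_ext ({univ} : Finset (Finset B))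
    (fun A hA => by
      rw [mem_singleton.1 hA, coe_univ]
      exact Set.ordConnected_univ)
    (fun A hA A' hA' => by
      rw [mem_singleton.1 hA, mem_singleton.1 hA']
      exact Or.inl subset_rfl) S (sg c₀)
  set c : ∀ j, Fin (N j) := fun j => if j ∈ S then c₀ j else
    (if σ j = true then ⟨0, by have := hN j; omega⟩ else ⟨1, by have := hN j; omega⟩) with hc
  have hcσ : sg c = σ := by
    funext j
    rw [hsg]
    dsimp only
    by_cases hj : j ∈ S
    · rw [hσ1 j hj]
      simp [hc, hj, hsg]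
    · by_cases hσ : σ j = true
      · rw [hσ]
        simp [hc, hj, hσ]
      · rw [Bool.not_eq_true] at hσ
        rw [hσ]
        simp [hc, hj, hσ]
  refine ⟨c, fun i hi => by simp [hc, hi], ?_⟩
  have h := (Pool.Agent.H665R3.Lam.exists_top hne (sg c)).choose_spec
  have h2 := hσ2 univ (mem_singleton_self _) (by
    obtain ⟨i, hi⟩ := hS
    exact ⟨i, mem_univ _, hi⟩) (Pool.Agent.H665R3.Lam.exists_top hne (sg c)).choose
    (by rw [← hcσ]; exact h)
  exact h2

/-- **Orders of the blocks and tops of the blocks.** -/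
theorem exists_weights {ι R : Type} [Fintype ι] [DecidableEq ι] [Fintype R] [DecidableEq R]
    (β : ι → R) (hβ : Function.Surjective β) (N : ι → ℕ) (hN : ∀ j, 2 ≤ N j)
    (hsum : ∑ b, ∏ j ∈ univ.filter (fun j => β j = b), (1 : ℝ) / N j ≤ 1) :
    ∃ (rk : (∀ j, Fin (N j)) → R → ℕ) (top : (∀ j, Fin (N j)) → R → ι),
      (∀ c b, rk c b ≤ Fintype.card R + 1) ∧
      ∀ (S : Finset ι) (c₀ : ∀ j, Fin (N j)), ∃ c : ∀ j, Fin (N j),
        (∀ i ∈ S, c i = c₀ i) ∧
        (∀ i ∈ S, β (top c (β i)) = β i ∧ top c (β i) ∈ S) ∧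
        (∀ i ∈ S, ∀ b, (∀ j ∈ S, β j ≠ b) → rk c b < rk c (β i)) := by
  classical
  have hne : ∀ b, Nonempty {j // β j = b} := fun b => by
    obtain ⟨j, hj⟩ := hβ b
    exact ⟨⟨j, hj⟩⟩
  choose tp htp using fun b => exists_top_fn (B := {j // β j = b}) (fun j => N j)
    (fun j => hN j)
  set N' : R → ℕ := fun b => Fintype.card (∀ j : {j // β j = b}, Fin (N j)) with hN'
  have hN'e : ∀ b, N' b = ∏ j ∈ univ.filter (fun j => β j = b), N j := by
    intro b
    rw [hN']
    dsimp only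
    rw [Fintype.card_pi]
    simp only [Fintype.card_fin]
    rw [← Finset.prod_subtype (univ.filter (fun j => β j = b)) (fun j => by simp) (fun j => N j)]
  have e : ∀ b, (∀ j : {j // β j = b}, Fin (N j)) ≃ Fin (N' b) := fun b => Fintype.equivFin _
  have hsum' : ∑ b, (1 : ℝ) / N' b ≤ 1 := by
    refine le_trans (le_of_eq ?_) hsum
    refine sum_congr rfl fun b _ => ?_
    rw [hN'e]
    push_cast
    rw [prod_div_distrib, prod_const_one]
  have hN'0 : ∀ b, 0 < N' b := by
    intro b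
    rw [hN'e]
    exact prod_pos fun j _ => by have := hN j; omega
  obtain ⟨rk, hrk1, hrk2⟩ := Pool.Agent.R753.exists_rank N' hN'0 hsum'
  set enc : (∀ j, Fin (N j)) → ∀ b, Fin (N' b) := fun c b => e b (fun j => c j) with henc
  refine ⟨fun c b => rk (enc c) b, fun c b => (tp b (fun j => c j) : ι), fun c b => hrk1 _ _, ?_⟩
  intro S c₀
  -- choices in the blocks
  set Sb : ∀ b, Finset {j // β j = b} := fun b => univ.filter fun j => (j : ι) ∈ S with hSb
  have hch : ∀ b, ∃ c : ∀ j : {j // β j = b}, Fin (N j), (∀ i ∈ Sb b, c i = c₀ i) ∧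
      ((Sb b).Nonempty → tp b c ∈ Sb b) := by
    intro b
    by_cases hb : (Sb b).Nonempty
    · obtain ⟨c, h1, h2⟩ := htp b (Sb b) hb (fun j => c₀ j)
      exact ⟨c, h1, fun _ => h2⟩
    · exact ⟨fun j => c₀ j, fun _ _ => rfl, fun h => absurd h hb⟩
  choose cb hcb1 hcb2 using hch
  obtain ⟨c', hc'1, hc'2⟩ := hrk2 (univ.filter fun b => (Sb b).Nonempty) (fun b => e b (cb b))
  set c : ∀ j, Fin (N j) := fun j => (e (β j)).symm (c' (β j)) ⟨j, rfl⟩ with hc
  have hcc : ∀ b, (fun j : {j // β j = b} => c j) = (e b).symm (c' b) := by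
    intro b
    funext j
    obtain ⟨j, rfl⟩ := j
    rfl
  have henc' : enc c = c' := by
    funext b
    rw [henc]
    dsimp only
    rw [hcc b, Equiv.apply_symm_apply]
  have hact : ∀ i ∈ S, (Sb (β i)).Nonempty := by
    intro i hi
    exact ⟨⟨i, rfl⟩, mem_filter.2 ⟨mem_univ _, hi⟩⟩
  have hblock : ∀ i ∈ S, (fun j : {j // β j = β i} => c j) = cb (β i) := by
    intro i hi
    rw [hcc, hc'1 (β i) (mem_filter.2 ⟨mem_univ _, hact i hi⟩), Equiv.symm_apply_apply]
  refine ⟨c, ?_, ?_, ?_⟩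
  · intro i hi
    have h1 := congrFun (hblock i hi) ⟨i, rfl⟩
    have h2 := hcb1 (β i) ⟨i, rfl⟩ (mem_filter.2 ⟨mem_univ _, hi⟩)
    exact h1.trans h2
  · intro i hi
    have h1 := hcb2 (β i) (hact i hi)
    rw [← hblock i hi] at h1
    exact ⟨(tp (β i) (fun j => c j)).2, (mem_filter.1 h1).2⟩
  · intro i hi b hb
    show rk (enc c) b < rk (enc c) (β i)
    rw [henc']
    refine hc'2 (β i) (mem_filter.2 ⟨mem_univ _, hact i hi⟩) b ?_
    intro hmem
    obtain ⟨j, hj⟩ := (mem_filter.1 hmem).2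
    exact hb j (mem_filter.1 hj).2 j.2

end Pool.Agent.Run7.h414.HC
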