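import Mathlib
import Pool.Agent.R753.Sums
import Pool.Agent.Run7.h414.HC.Top

set_option autoImplicit false

/-!
Sums of convex bodies with respect to profile sets which are balanced in the blocks of a partition
of the coordinates.
-/

namespace Pool.Agent.Run7.h414.HC

open Filter Topology Finset
open Pool.Agent.R753 (Sol interior_of_lt body reduce)

variable {ι R : Type} [Fintype ι] [Fintype R] [DecidableEq ι]

/-- A small amount of a large coordinate can be exchanged for a small amount of a small coordinate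
of the same block. -/
def Bal (β : ι → R) (M : Set (ι → ℝ)) : Prop :=
  ∀ η : ℝ, 0 < η → ∃ l : ℝ, 0 < l ∧ ∀ x ∈ M, (∀ i, 0 ≤ x i) → ∀ i j, β i = β j → i ≠ j →
    η ≤ x i → x j ≤ l → x - Pi.single i η + Pi.single j l ∈ M

omit [Fintype ι] [Fintype R] in
theorem bal_le {β : ι → R} {M : Set (ι → ℝ)} (hsol : Sol M) (hbal : Bal β M) (η : ℝ)
    (hη : 0 < η) : ∃ l : ℝ, 0 < l ∧ l ≤ η ∧ ∀ x ∈ M, (∀ i, 0 ≤ x i) → ∀ i j, β i = β j → i ≠ j →
    η ≤ x i → x j ≤ l → x - Pi.single i η + Pi.single j l ∈ M := by
  obtain ⟨l, hl0, hl⟩ := hbal η hη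
  refine ⟨min l η, lt_min hl0 hη, min_le_right _ _, ?_⟩
  intro x hx hx0 i j hij hne hi hj
  refine hsol _ (hl x hx hx0 i j hij hne hi (hj.trans (min_le_left _ _))) _ fun a => ?_
  rw [Set.mem_uIcc]
  left
  simp only [Pi.add_apply, Pi.sub_apply]
  have h1 : 0 ≤ x a - (Pi.single i η : ι → ℝ) a := by
    by_cases ha : a = i
    · subst ha
      rw [Pi.single_eq_same]
      linarith
    · rw [Pi.single_eq_of_ne ha]
      have := hx0 a
      linarith
  have h2 : 0 ≤ (Pi.single j (min l η) : ι → ℝ) a ∧
      (Pi.single j (min l η) : ι → ℝ) a ≤ (Pi.single j l : ι → ℝ) a := by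
    by_cases ha : a = j
    · subst ha
      rw [Pi.single_eq_same, Pi.single_eq_same]
      exact ⟨(lt_min hl0 hη).le, min_le_left _ _⟩
    · rw [Pi.single_eq_of_ne ha, Pi.single_eq_of_ne ha]
      exact ⟨le_rfl, le_rfl⟩
  constructor
  · linarith [h2.1]
  · linarith [h2.2]

omit [DecidableEq ι] [Fintype R] in
/-- Scales without coordinates in one of the gaps. -/
theorem exists_scales {P : ℝ → ℝ → Prop} (hP : ∀ η : ℝ, 0 < η → ∃ l : ℝ, 0 < l ∧ l ≤ η ∧ P η l)
    (η₀ : ℝ) (hη₀ : 0 < η₀) : ∃ (h l : ℕ → ℝ) (hmin : ℝ), 0 < hmin ∧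
      (∀ m, h m ≤ η₀) ∧ (∀ m, 0 < h m) ∧ (∀ m, P (h m) (l m)) ∧ (∀ m, l m ≤ h m) ∧
      (∀ m ≤ Fintype.card ι, hmin ≤ l m) ∧
      ∀ X : ι → ℝ, ∃ m ≤ Fintype.card ι, ∀ i, X i < h m → X i ≤ l m := by
  classical
  choose! L hL0 hL1 hL2 using hP
  set h : ℕ → ℝ := fun m => L^[m] η₀ with hh
  have hpos : ∀ m, 0 < h m := by
    intro m
    induction m with
    | zero => exact hη₀
    | succ m ih =>
      rw [hh]
      dsimp only
      rw [Function.iterate_succ_apply']
      exact hL0 _ ih
  have hsucc : ∀ m, h (m + 1) = L (h m) := fun m => Function.iterate_succ_apply' _ _ _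
  have hanti : Antitone h := antitone_nat_of_succ_le fun m => by
    rw [hsucc]
    exact hL1 _ (hpos m)
  refine ⟨h, fun m => L (h m), L (h (Fintype.card ι)), hL0 _ (hpos _),
    fun m => hanti (Nat.zero_le m), hpos, fun m => hL2 _ (hpos m), fun m => hL1 _ (hpos m), ?_, ?_⟩
  · intro m hm
    show L (h (Fintype.card ι)) ≤ L (h m)
    rw [← hsucc, ← hsucc]
    exact hanti (by omega)
  · intro X
    by_contra hcon
    push Not at hcon
    have hcon' : ∀ m : Fin (Fintype.card ι + 1), ∃ i, X i < h m ∧ h (m + 1) < X i := by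
      intro m
      obtain ⟨i, hi1, hi2⟩ := hcon m (Nat.lt_succ_iff.1 m.2)
      exact ⟨i, hi1, by rw [hsucc]; exact hi2⟩
    choose f hf1 hf2 using hcon'
    have hinj : Function.Injective f := by
      intro m m' hmm
      by_contra hne
      rcases lt_or_gt_of_ne hne with hlt | hlt
      · have h1 := hf1 m'
        have h2 := hf2 m
        rw [hmm] at h2
        have h3 : h m' ≤ h (m + 1) := hanti (by
          have : (m : ℕ) < m' := hlt
          omega)
        linarith
      · have h1 := hf1 m
        have h2 := hf2 m'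
        rw [← hmm] at h2
        have h3 : h m ≤ h (m' + 1) := hanti (by
          have : (m' : ℕ) < m := hlt
          omega)
        linarith
    have := Fintype.card_le_of_injective f hinj
    rw [Fintype.card_fin] at this
    omega

/-- **Sums with respect to balanced profile sets.** -/
theorem balanced [DecidableEq R] {E : ι → Type} [∀ j, NormedAddCommGroup (E j)]
    [∀ j, NormedSpace ℝ (E j)] [∀ j, FiniteDimensional ℝ (E j)]
    (C : ∀ j, Set (E j)) (hCc : ∀ j, Convex ℝ (C j))
    (hCk : ∀ j, IsCompact (C j)) (hC0 : ∀ j, (0 : E j) ∈ interior (C j))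
    (β : ι → R) (hβ : Function.Surjective β)
    (N : ι → ℕ) (hN : ∀ j, 2 ≤ N j)
    (hsum : ∑ b, ∏ j ∈ univ.filter (fun j => β j = b), (1 : ℝ) / N j ≤ 1)
    (hcov : ∀ j, ∃ T : Finset (E j), T.card ≤ N j ∧
      C j ⊆ ⋃ t ∈ T, (fun x => t + x) '' interior (C j))
    (M : Set (ι → ℝ)) (hMc : Convex ℝ M) (hMcl : IsClosed M)
    (hM0 : (0 : ι → ℝ) ∈ interior M) (hsol : Sol M) (hbal : Bal β M)
    (K : Set (∀ j, E j)) (hK : K = {x | (fun j => gauge (C j) (x j)) ∈ M})
    (hKb : Bornology.IsBounded K) :
    Convex ℝ K ∧ IsCompact K ∧ (0 : ∀ j, E j) ∈ interior K ∧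
    ∃ T : Finset (∀ j, E j), T.card ≤ ∏ j, N j ∧
      K ⊆ ⋃ t ∈ T, (fun x => t + x) '' interior K := by
  obtain ⟨hconv, hcomp, hint0, hint⟩ := body C hCc hC0 M hMc hMcl hM0 hsol K hK hKb
  refine ⟨hconv, hcomp, hint0, ?_⟩
  obtain ⟨κ, D, hκ0, hκ1, hD1, hred⟩ := reduce C hCc hCk hC0 N hcov
  obtain ⟨rk, top, hrk1, hrk2⟩ := exists_weights β hβ N hN hsum
  have hD0 : 0 < D := by linarith
  obtain ⟨r, hr, hball⟩ := Metric.isOpen_iff.1 (isOpen_interior (s := M)) 0 hM0
  set η₀ : ℝ := r / 4 with hη₀
  have hη₀0 : 0 < η₀ := by positivity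
  have hz : (fun _ => 3 * η₀ : ι → ℝ) ∈ M := by
    apply interior_subset
    apply hball
    rw [Metric.mem_ball]
    refine lt_of_le_of_lt ((dist_pi_le_iff (by positivity : (0 : ℝ) ≤ 3 * η₀)).2 ?_)
      (by rw [hη₀]; linarith : 3 * η₀ < r)
    intro i
    rw [Real.dist_eq, Pi.zero_apply, sub_zero, abs_of_pos (by positivity)]
  -- bound
  have hGc : Continuous (fun (x : ∀ j, E j) (j : ι) => gauge (C j) (x j)) := by
    refine continuous_pi fun j => ?_
    exact (continuous_gauge (hCc j) (mem_interior_iff_mem_nhds.1 (hC0 j))).comp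
      (continuous_apply j)
  obtain ⟨R', hR0, hR⟩ : ∃ R' : ℝ, 0 < R' ∧ ∀ x ∈ K, ∀ j, gauge (C j) (x j) ≤ R' := by
    obtain ⟨R', hR⟩ := (hcomp.image hGc).isBounded.exists_norm_le
    refine ⟨max R' 1, lt_max_of_lt_right one_pos, ?_⟩
    intro x hx j
    have h1 := hR _ (Set.mem_image_of_mem _ hx)
    have h2 := norm_le_pi_norm (fun j => gauge (C j) (x j)) j
    exact ((le_abs_self _).trans (h2.trans h1)).trans (le_max_left _ _)
  -- scales
  obtain ⟨h, lam, hmin, hmin0, hh0, hhpos, hhP, hlamh, hminl, hgap⟩ :=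
    exists_scales (ι := ι) (bal_le hsol hbal) η₀ hη₀0
  set n : ℝ := Fintype.card ι + 1 with hn
  have hn0 : 0 < n := by positivity
  set ε : ℝ := hmin / D with hε
  have hε0 : 0 < ε := by positivity
  have hεm : ε ≤ hmin := div_le_self hmin0.le hD1
  have hεD : D * ε = hmin := by rw [hε, mul_div_cancel₀ _ hD0.ne']
  set δ : ℝ := min 1 (min (κ * hmin / (2 * η₀ * n * D)) (κ * η₀ / (4 * R' * D))) with hδ
  have hδ0 : 0 < δ := lt_min one_pos (lt_min (by positivity) (by positivity))
  have hδ1 : δ ≤ 1 := min_le_left _ _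
  have hδ2 : δ * (2 * η₀ * n * D) ≤ κ * hmin := by
    have := (min_le_right 1 (min (κ * hmin / (2 * η₀ * n * D)) (κ * η₀ / (4 * R' * D)))).trans
      (min_le_left _ _)
    rwa [← hδ, le_div_iff₀ (by positivity)] at this
  have hδ3 : δ * (4 * R' * D) ≤ κ * η₀ := by
    have := (min_le_right 1 (min (κ * hmin / (2 * η₀ * n * D)) (κ * η₀ / (4 * R' * D)))).trans
      (min_le_right _ _)
    rwa [← hδ, le_div_iff₀ (by positivity)] at this
  set q : ℕ := Fintype.card R + 1 with hq
  have hε2 : ∀ m : ℕ, 0 < ε * δ ^ m := fun m => mul_pos hε0 (pow_pos hδ0 m)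
  have hε3 : ∀ m : ℕ, ε * δ ^ m ≤ ε := fun m => by
    have := pow_le_one₀ (n := m) hδ0.le hδ1
    nlinarith
  refine hred M hMc hMcl hM0 hsol K hK hKb
    (fun c j => ε * δ ^ (2 * (q - rk c (β j)) + if top c (β j) = j then 0 else 1))
    (fun c j => (hε2 _).le) ?_
  intro x hx c₀
  set X : ι → ℝ := fun j => gauge (C j) (x j) with hX
  have hX0 : ∀ j, 0 ≤ X j := fun j => gauge_nonneg _
  have hXM : X ∈ M := by
    rw [hK] at hx
    exact hx
  have hXR : ∀ j, X j ≤ R' := fun j => hR x hx j
  obtain ⟨m, hm, hgapm⟩ := hgap X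
  set η : ℝ := h m with hη
  have hη0 : 0 < η := hhpos m
  have hηη₀ : η ≤ η₀ := hh0 m
  set lm : ℝ := lam m with hlm
  have hlmmin : hmin ≤ lm := hminl m hm
  have hlm0 : 0 < lm := hmin0.trans_le hlmmin
  have hlmη : lm ≤ η := hlamh m
  have hεη : ε ≤ η := hεm.trans (hlmmin.trans hlmη)
  set S : Finset ι := univ.filter (fun i => η ≤ X i) with hS
  have hSmem : ∀ i, i ∈ S ↔ η ≤ X i := fun i => by simp [hS]
  have hSn : ∀ i, i ∉ S → X i ≤ lm := by
    intro i hi
    rw [hSmem, not_le] at hi
    exact hgapm i hi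
  obtain ⟨c, hc1, hc2, hc3⟩ := hrk2 S c₀
  refine ⟨c, ?_⟩
  intro Y hY0 hY1 hY2
  set a : ι → ℝ := fun j => ε * δ ^ (2 * (q - rk c (β j)) + if top c (β j) = j then 0 else 1)
    with ha
  change ∀ j, Y j ≤ X j + D * a j at hY1
  change ∀ j, c j = c₀ j → a j ≤ X j → Y j ≤ X j - κ * a j at hY2
  have haε : ∀ j, a j ≤ ε := fun j => hε3 _
  rcases S.eq_empty_or_nonempty with hSe | hSne
  · refine interior_of_lt hMc hM0 hsol hz hY0 fun i => ?_
    have h1 : X i ≤ lm := hSn i (by rw [hSe]; exact notMem_empty i)
    have h2 := hY1 i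
    have h3 : D * a i ≤ hmin := by
      rw [← hεD]
      exact mul_le_mul_of_nonneg_left (haε i) hD0.le
    linarith
  · -- the weights of the blocks
    set Ab : R → ℝ := fun b => ε * δ ^ (2 * (q - rk c b)) with hAb
    have hAb0 : ∀ b, 0 < Ab b := fun b => hε2 _
    have hAbε : ∀ b, Ab b ≤ ε := fun b => hε3 _
    have hatop : ∀ j, top c (β j) = j → a j = Ab (β j) := by
      intro j hj
      rw [ha, hAb]
      dsimp only
      rw [if_pos hj, add_zero]
    have hanot : ∀ j, top c (β j) ≠ j → a j = δ * Ab (β j) := by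
      intro j hj
      rw [ha, hAb]
      dsimp only
      rw [if_neg hj, pow_succ]
      ring
    obtain ⟨i₀, hi₀, hmini⟩ := exists_min_image S (fun i => Ab (β i)) hSne
    set A : ℝ := Ab (β i₀) with hA
    have hA0 : 0 < A := hAb0 _
    have hina : ∀ j, (∀ i ∈ S, β i ≠ β j) → a j ≤ δ * (δ * A) := by
      intro j hj
      have h1 := hc3 i₀ hi₀ (β j) hj
      have h2 := hrk1 c (β i₀)
      have h3 : a j ≤ Ab (β j) := by
        by_cases ht : top c (β j) = j
        · rw [hatop j ht]
        · rw [hanot j ht]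
          have := hAb0 (β j)
          nlinarith
      refine h3.trans ?_
      rw [hA, hAb]
      dsimp only
      have h4 : δ ^ (2 * (q - rk c (β j))) ≤ δ ^ (2 * (q - rk c (β i₀)) + 2) :=
        pow_le_pow_of_le_one hδ0.le hδ1 (by omega)
      calc ε * δ ^ (2 * (q - rk c (β j))) ≤ ε * δ ^ (2 * (q - rk c (β i₀)) + 2) :=
            mul_le_mul_of_nonneg_left h4 hε0.le
        _ = δ * (δ * (ε * δ ^ (2 * (q - rk c (β i₀))))) := by ring
    -- exchange
    set s : R → ℝ := fun b => κ * Ab b / (2 * η) with hs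
    have hs0 : ∀ b, 0 < s b := fun b => by
      have := hAb0 b
      positivity
    have hs1 : ∀ b, s b ≤ 1 := by
      intro b
      rw [hs]
      dsimp only
      rw [div_le_one (by positivity)]
      have h1 := hAbε b
      have h2 := hAb0 b
      nlinarith
    have hsη : ∀ b, s b * η = κ * Ab b / 2 := by
      intro b
      rw [hs]
      field_simp
    set w : ι → ι → ℝ := fun j => if (j ∉ S ∧ ∃ i ∈ S, β i = β j) then
      X - Pi.single (top c (β j)) η + Pi.single j lm else X with hw
    have htopS : ∀ j, (∃ i ∈ S, β i = β j) → β (top c (β j)) = β j ∧ top c (β j) ∈ S := by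
      rintro j ⟨i, hi, hij⟩
      have := hc2 i hi
      rw [hij] at this
      exact this
    have hwM : ∀ j, w j ∈ M := by
      intro j
      rw [hw]
      dsimp only
      split_ifs with hj
      · obtain ⟨hj1, hj2⟩ := hj
        obtain ⟨h1, h2⟩ := htopS j hj2
        exact hhP m X hXM hX0 (top c (β j)) j h1 (fun e => hj1 (e ▸ h2)) ((hSmem _).1 h2)
          (hSn j hj1)
      · exact hXM
    have hne : Nonempty ι := ⟨i₀⟩
    set u : ι → ι → ℝ := fun j => (1 - s (β j)) • X + s (β j) • w j with hu
    have huM : ∀ j, u j ∈ M := fun j =>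
      hMc hXM (hwM j) (by linarith [hs1 (β j)]) (hs0 _).le (by ring)
    have hcard : (0 : ℝ) < Fintype.card ι := by exact_mod_cast Fintype.card_pos
    set Q : ι → ℝ := ∑ j, (1 / (Fintype.card ι : ℝ)) • u j with hQ
    have hQM : Q ∈ M := by
      refine hMc.sum_mem (fun j _ => by positivity) ?_ (fun j _ => huM j)
      rw [sum_const, card_univ, nsmul_eq_mul]
      field_simp
    have hui : ∀ j i, u j i = X i + s (β j) * (w j i - X i) := by
      intro j i
      rw [hu]
      simp only [Pi.add_apply, Pi.smul_apply, smul_eq_mul]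
      ring
    -- lower bounds
    have hw1 : ∀ j i, (∀ (_ : ∃ i' ∈ S, β i' = β j), top c (β j) ≠ i) → X i ≤ w j i := by
      intro j i hti
      rw [hw]
      dsimp only
      split_ifs with hj
      · have hti' := hti hj.2
        simp only [Pi.add_apply, Pi.sub_apply]
        rw [Pi.single_eq_of_ne hti'.symm]
        have : 0 ≤ (Pi.single j lm : ι → ℝ) i := by
          by_cases hij : i = j
          · subst hij
            rw [Pi.single_eq_same]
            exact hlm0.le
          · rw [Pi.single_eq_of_ne hij]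
        linarith
      · exact le_rfl
    have hw2 : ∀ j i, X i - η ≤ w j i := by
      intro j i
      rw [hw]
      dsimp only
      split_ifs with hj
      · simp only [Pi.add_apply, Pi.sub_apply]
        have h1 : 0 ≤ (Pi.single j lm : ι → ℝ) i := by
          by_cases hij : i = j
          · subst hij
            rw [Pi.single_eq_same]
            exact hlm0.le
          · rw [Pi.single_eq_of_ne hij]
        have h2 : (Pi.single (top c (β j)) η : ι → ℝ) i ≤ η := by
          by_cases hij : i = top c (β j)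
          · rw [← hij, Pi.single_eq_same]
          · rw [Pi.single_eq_of_ne hij]
            exact hη0.le
        linarith
      · linarith
    have havg : ∀ (i : ι) (g : ι → ℝ), (∀ j, g j ≤ u j i) →
        (1 / (Fintype.card ι : ℝ)) * ∑ j, g j ≤ Q i := by
      intro i g hg
      rw [hQ, Finset.sum_apply]
      simp only [Pi.smul_apply, smul_eq_mul]
      rw [← mul_sum]
      exact mul_le_mul_of_nonneg_left (sum_le_sum fun j _ => hg j) (by positivity)
    have hconst : ∀ y : ℝ, (1 / (Fintype.card ι : ℝ)) * ∑ _j : ι, y = y := by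
      intro y
      rw [sum_const, card_univ, nsmul_eq_mul]
      field_simp
    -- the tops
    have hQtop : ∀ i ∈ S, X i - κ * Ab (β i) / 2 ≤ Q i := by
      intro i hi
      have := havg i (fun _ => X i - κ * Ab (β i) / 2) (fun j => by
        rw [hui]
        by_cases hij : β j = β i
        · rw [hij]
          have h1 := hw2 j i
          have h2 := hsη (β i)
          have h3 := hs0 (β i)
          nlinarith
        · have h1 := hw1 j i (fun hex e => hij (by rw [← (htopS j hex).1, e]))
          have h2 := hs0 (β j)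
          have h3 := mul_nonneg h2.le (sub_nonneg.2 h1)
          have h4 := mul_pos hκ0 (hAb0 (β i))
          linarith)
      rwa [hconst] at this
    have hQoth : ∀ i, ((∀ j, (∃ i' ∈ S, β i' = β j) → top c (β j) ≠ i)) → X i ≤ Q i := by
      intro i hi
      have := havg i (fun _ => X i) (fun j => by
        rw [hui]
        have h1 := hw1 j i (hi j)
        have h3 := mul_nonneg (hs0 (β j)).le (sub_nonneg.2 h1)
        linarith)
      rwa [hconst] at this
    have hQZ : ∀ i, i ∉ S → (∃ i' ∈ S, β i' = β i) →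
        X i + s (β i) * lm / Fintype.card ι ≤ Q i := by
      intro i hi hex
      have hti : ∀ j, (∃ i' ∈ S, β i' = β j) → top c (β j) ≠ i := by
        intro j hj e
        exact hi (e ▸ (htopS j hj).2)
      have := havg i (fun j => X i + if j = i then s (β i) * lm else 0) (fun j => by
        rw [hui]
        by_cases hji : j = i
        · subst hji
          rw [if_pos rfl]
          have : w j j - X j = lm := by
            rw [hw]
            dsimp only
            rw [if_pos ⟨hi, hex⟩]
            simp only [Pi.add_apply, Pi.sub_apply]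
            rw [Pi.single_eq_same, Pi.single_eq_of_ne (hti j hex).symm]
            ring
          rw [this]
        · rw [if_neg hji]
          have h1 := hw1 j i (hti j)
          have h3 := mul_nonneg (hs0 (β j)).le (sub_nonneg.2 h1)
          linarith)
      rw [sum_add_distrib, mul_add, hconst, sum_ite_eq' univ i, if_pos (mem_univ _)] at this
      calc X i + s (β i) * lm / Fintype.card ι
          = X i + 1 / (Fintype.card ι : ℝ) * (s (β i) * lm) := by ring
        _ ≤ Q i := this
    -- the mixture
    set l : ℝ := κ * (δ * A) / (4 * R') with hl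
    have hl0 : 0 < l := by positivity
    have hlR : l * R' = κ * (δ * A) / 4 := by
      rw [hl]
      field_simp
    have hδA : δ * A ≤ A := by nlinarith
    have hl1 : l ≤ 1 := by
      rw [hl, div_le_one (by positivity)]
      have h1 : A ≤ ε := hAbε _
      have h2 : η ≤ R' := ((hSmem i₀).1 hi₀).trans (hXR i₀)
      have h3 : κ * (δ * A) ≤ 1 * A := mul_le_mul hκ1 hδA (by positivity) zero_le_one
      linarith
    set p : ι → ℝ := (1 - l) • Q + l • (fun _ => 3 * η₀ : ι → ℝ) with hp
    have hpM : p ∈ M := hMc hQM hz (by linarith) hl0.le (by ring)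
    have hpi : ∀ i, p i = (1 - l) * Q i + l * (3 * η₀) := by
      intro i
      simp only [hp, Pi.add_apply, Pi.smul_apply, smul_eq_mul]
    have hpq : ∀ i y, y ≤ Q i → y - l * y + l * (3 * η₀) ≤ p i := by
      intro i y hy
      rw [hpi]
      have : (1 - l) * y ≤ (1 - l) * Q i := mul_le_mul_of_nonneg_left hy (by linarith)
      linarith
    have hlη : 0 < l * (3 * η₀) := by positivity
    refine interior_of_lt hMc hM0 hsol hpM hY0 fun i => ?_
    by_cases hi : i ∈ S
    · have hXi : η ≤ X i := (hSmem i).1 hi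
      have h1 := hY2 i (hc1 i hi) ((haε i).trans (hεη.trans hXi))
      have h2 : A ≤ Ab (β i) := hmini i hi
      by_cases ht : top c (β i) = i
      · rw [hatop i ht] at h1
        have h3 := hpq i _ (hQtop i hi)
        have h4 : l * (X i - κ * Ab (β i) / 2) ≤ l * R' := by
          refine mul_le_mul_of_nonneg_left ?_ hl0.le
          have := mul_pos hκ0 (hAb0 (β i))
          have := hXR i
          linarith
        have h5 : κ * (δ * A) ≤ κ * Ab (β i) :=
          mul_le_mul_of_nonneg_left (hδA.trans h2) hκ0.le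
        have h6 := mul_pos hκ0 (hAb0 (β i))
        linarith
      · rw [hanot i ht] at h1
        have h3 := hpq i _ (hQoth i (fun j hex e => ht (by
          have h5 := (htopS j hex).1
          rw [e] at h5
          rw [h5, e])))
        have h4 : l * X i ≤ l * R' := mul_le_mul_of_nonneg_left (hXR i) hl0.le
        have h5 : κ * (δ * A) ≤ κ * (δ * Ab (β i)) :=
          mul_le_mul_of_nonneg_left (mul_le_mul_of_nonneg_left h2 hδ0.le) hκ0.le
        have h6 : 0 < κ * (δ * A) := by positivity
        linarith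
    · have hXi : X i ≤ lm := hSn i hi
      have hXη : X i ≤ η₀ := hXi.trans (hlmη.trans hηη₀)
      by_cases hex : ∃ i' ∈ S, β i' = β i
      · have ht : top c (β i) ≠ i := fun e => hi (e ▸ (htopS i hex).2)
        have h1 := hY1 i
        rw [hanot i ht] at h1
        have h3 := hpq i _ (hQZ i hi hex)
        have hAbi := hAb0 (β i)
        -- the size of the exchange
        have h7 : D * (δ * Ab (β i)) ≤ s (β i) * lm / Fintype.card ι := by
          rw [hs]
          dsimp only
          rw [le_div_iff₀ hcard, div_mul_eq_mul_div, le_div_iff₀ (by positivity)]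
          have e1 : D * (δ * Ab (β i)) * (Fintype.card ι : ℝ) * (2 * η) ≤
              D * (δ * Ab (β i)) * n * (2 * η₀) := by
            have : (Fintype.card ι : ℝ) ≤ n := by rw [hn]; linarith
            gcongr
          have e2 : D * (δ * Ab (β i)) * n * (2 * η₀) = (δ * (2 * η₀ * n * D)) * Ab (β i) := by
            ring
          have e3 : (δ * (2 * η₀ * n * D)) * Ab (β i) ≤ (κ * hmin) * Ab (β i) :=
            mul_le_mul_of_nonneg_right hδ2 hAbi.le
          have e4 : (κ * hmin) * Ab (β i) ≤ κ * Ab (β i) * lm := by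
            have : κ * Ab (β i) * hmin ≤ κ * Ab (β i) * lm :=
              mul_le_mul_of_nonneg_left hlmmin (by positivity)
            linarith
          linarith
        have h8 : s (β i) * lm / Fintype.card ι ≤ η₀ := by
          rw [div_le_iff₀ hcard]
          have e1 : s (β i) * lm ≤ 1 * η₀ :=
            mul_le_mul (hs1 _) (hlmη.trans hηη₀) hlm0.le zero_le_one
          have e2 : (1 : ℝ) ≤ Fintype.card ι := by
            exact_mod_cast Nat.one_le_iff_ne_zero.2 Fintype.card_ne_zero
          nlinarith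
        have h9 : l * (X i + s (β i) * lm / Fintype.card ι) < l * (3 * η₀) :=
          mul_lt_mul_of_pos_left (by linarith) hl0
        linarith
      · push Not at hex
        have h1 := hY1 i
        have h2 := hina i hex
        have h3 := hpq i _ (hQoth i (fun j hj e => by
          obtain ⟨h5, h6⟩ := htopS j hj
          rw [e] at h6
          exact hi h6))
        have h4 : D * a i ≤ D * (δ * (δ * A)) := mul_le_mul_of_nonneg_left h2 hD0.le
        have h5 : D * (δ * (δ * A)) ≤ l * η₀ := by
          have e1 : l * η₀ * (4 * R') = κ * η₀ * (δ * A) := by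
            rw [hl]
            field_simp
          have e2 : D * (δ * (δ * A)) * (4 * R') = (δ * (4 * R' * D)) * (δ * A) := by ring
          have e3 : (δ * (4 * R' * D)) * (δ * A) ≤ κ * η₀ * (δ * A) :=
            mul_le_mul_of_nonneg_right hδ3 (by positivity)
          have e4 : D * (δ * (δ * A)) * (4 * R') ≤ l * η₀ * (4 * R') := by
            rw [e1, e2]
            exact e3
          exact le_of_mul_le_mul_right e4 (by positivity)
        have h6 : l * X i ≤ l * η₀ := mul_le_mul_of_nonneg_left hXη hl0.le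
        have h7 : 0 < l * η₀ := by positivity
        linarith

end Pool.Agent.Run7.h414.HC
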