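import Mathlib
import Pool.Agent.N148.HD.Cor
import Pool.Agent.Run7.h414.HC.Main

set_option autoImplicit false

/-!
Criteria for balanced profile sets, and unconditional bodies.
-/

namespace Pool.Agent.Run7.h414.HC

open Finset
open Pool.Agent.R753 (Sol)
open Pool.Agent.N148.HD (Unc unc_le sol_of_unc interval_cov)

variable {ι R : Type} [Fintype ι] [DecidableEq ι]

omit [Fintype ι] in
/-- Symmetric profile sets are balanced. -/
theorem bal_of_swap {β : ι → R} {M : Set (ι → ℝ)} (hMc : Convex ℝ M) (hsol : Sol M)
    (hsym : ∀ x ∈ M, ∀ i j, β i = β j → x ∘ Equiv.swap i j ∈ M) : Bal β M := by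
  intro η hη
  refine ⟨η / 2, by positivity, ?_⟩
  intro x hx hx0 i j hij hne hi hj
  have hd : η / 2 ≤ x i - x j := by linarith
  have hd0 : 0 < x i - x j := by linarith
  set θ : ℝ := (η / 2) / (x i - x j) with hθ
  have hθ0 : 0 ≤ θ := by positivity
  have hθ1 : θ ≤ 1 := by
    rw [hθ, div_le_one hd0]
    exact hd
  have hθd : θ * (x i - x j) = η / 2 := by
    rw [hθ, div_mul_cancel₀ _ hd0.ne']
  have hy : (1 - θ) • x + θ • (x ∘ Equiv.swap i j) ∈ M :=
    hMc hx (hsym x hx i j hij) (by linarith) hθ0 (by ring)
  refine hsol _ hy _ fun a => ?_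
  rw [Set.mem_uIcc]
  left
  simp only [Pi.add_apply, Pi.sub_apply, Pi.smul_apply, smul_eq_mul, Function.comp_apply]
  by_cases hai : a = i
  · subst hai
    rw [Pi.single_eq_same, Pi.single_eq_of_ne hne, Equiv.swap_apply_left]
    constructor
    · linarith
    · nlinarith
  · by_cases haj : a = j
    · subst haj
      rw [Pi.single_eq_same, Pi.single_eq_of_ne hai, Equiv.swap_apply_right]
      constructor
      · have := hx0 a
        linarith
      · nlinarith
    · rw [Pi.single_eq_of_ne hai, Pi.single_eq_of_ne haj, Equiv.swap_apply_of_ne_of_ne hai haj]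
      constructor
      · have := hx0 a
        linarith
      · linarith

/-- Strictly monotone profile sets are balanced. -/
theorem bal_of_strict {β : ι → R} {M : Set (ι → ℝ)} (hMcl : IsClosed M)
    (hb : Bornology.IsBounded {x | x ∈ M ∧ ∀ i, 0 ≤ x i})
    (hst : ∀ x ∈ M, (∀ i, 0 ≤ x i) → ∀ i t, 0 ≤ t → t < x i → Function.update x i t ∈ interior M) :
    Bal β M := by
  intro η hη
  have key : ∀ i : ι, ∃ ρ : ℝ, 0 < ρ ∧ ∀ x ∈ M, (∀ i, 0 ≤ x i) → η ≤ x i → ∀ j,
      x - Pi.single i η + Pi.single j ρ ∈ M := by
    intro i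
    set A : Set (ι → ℝ) := {x | x ∈ M ∧ (∀ i, 0 ≤ x i) ∧ η ≤ x i} with hA
    have hAcl : IsClosed A := by
      have h1 : A = M ∩ ((⋂ a, {x : ι → ℝ | 0 ≤ x a}) ∩ {x : ι → ℝ | η ≤ x i}) := by
        ext x
        simp only [hA, Set.mem_ofPred_eq, Set.mem_inter_iff, Set.mem_iInter]
      rw [h1]
      refine hMcl.inter ((isClosed_iInter fun a => ?_).inter ?_)
      · exact isClosed_le continuous_const (continuous_apply a)
      · exact isClosed_le continuous_const (continuous_apply i)
    have hAc : IsCompact A := Metric.isCompact_of_isClosed_isBounded hAcl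
      (hb.subset fun x hx => ⟨hx.1, hx.2.1⟩)
    set f : (ι → ℝ) → (ι → ℝ) := fun x => x - Pi.single i η with hf
    have hfc : Continuous f := continuous_id.sub continuous_const
    have hsub : f '' A ⊆ interior M := by
      rintro _ ⟨x, hx, rfl⟩
      have h1 := hst x hx.1 hx.2.1 i (x i - η) (by linarith [hx.2.2]) (by linarith)
      have h2 : f x = Function.update x i (x i - η) := by
        funext a
        rw [hf]
        simp only [Pi.sub_apply]
        by_cases ha : a = i
        · subst ha
          rw [Pi.single_eq_same, Function.update_self]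
        · rw [Pi.single_eq_of_ne ha, Function.update_of_ne ha, sub_zero]
      rw [h2]
      exact h1
    obtain ⟨ρ, hρ, hρ2⟩ := (hAc.image hfc).exists_thickening_subset_open isOpen_interior hsub
    refine ⟨ρ / 2, by positivity, ?_⟩
    intro x hx hx0 hi j
    apply interior_subset
    apply hρ2
    rw [Metric.mem_thickening_iff]
    refine ⟨f x, ⟨x, ⟨hx, hx0, hi⟩, rfl⟩, ?_⟩
    have h3 : dist (x - Pi.single i η + Pi.single j (ρ / 2)) (f x) ≤ ρ / 2 := by
      rw [dist_pi_le_iff (by positivity)]
      intro a
      rw [hf, Real.dist_eq]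
      simp only [Pi.add_apply, Pi.sub_apply, add_sub_cancel_left]
      by_cases ha : a = j
      · subst ha
        rw [Pi.single_eq_same, abs_of_pos (by positivity)]
      · rw [Pi.single_eq_of_ne ha, abs_zero]
        positivity
    linarith
  choose ρ hρ0 hρ using key
  rcases isEmpty_or_nonempty ι with he | hne
  · exact ⟨1, one_pos, fun x _ _ i => (he.false i).elim⟩
  obtain ⟨i₀, -, hmin⟩ := exists_min_image (univ : Finset ι) ρ univ_nonempty
  have hsplit : ∀ x ∈ M, (∀ i, 0 ≤ x i) → ∀ i j, i ≠ j → η ≤ x i →
      x - Pi.single i η + Pi.single j (ρ i₀) ∈ M := by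
    intro x hx hx0 i j hne hi
    have h1 := hρ i x hx hx0 hi j
    have h2 := hst x hx hx0 i (x i - η) (by linarith) (by linarith)
    have h3 : x - Pi.single i η = Function.update x i (x i - η) := by
      funext a
      simp only [Pi.sub_apply]
      by_cases ha : a = i
      · subst ha
        rw [Pi.single_eq_same, Function.update_self]
      · rw [Pi.single_eq_of_ne ha, Function.update_of_ne ha, sub_zero]
    have h4 := hρ i x hx hx0 hi
    -- use the value for `i` and lower it to `ρ i₀`
    have h5 := hst (x - Pi.single i η + Pi.single j (ρ i)) h1 (fun a => by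
      simp only [Pi.add_apply, Pi.sub_apply]
      by_cases ha : a = i
      · subst ha
        rw [Pi.single_eq_same, Pi.single_eq_of_ne hne]
        linarith
      · rw [Pi.single_eq_of_ne ha]
        by_cases haj : a = j
        · subst haj
          rw [Pi.single_eq_same]
          have := hx0 a
          have := hρ0 i
          linarith
        · rw [Pi.single_eq_of_ne haj]
          have := hx0 a
          linarith) j
    have hxj : (x - Pi.single i η + Pi.single j (ρ i) : ι → ℝ) j = x j + ρ i := by
      simp only [Pi.add_apply, Pi.sub_apply]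
      rw [Pi.single_eq_same, Pi.single_eq_of_ne hne.symm]
      ring
    rcases (hmin i (mem_univ i)).eq_or_lt with h6 | h6
    · rw [h6]
      exact h1
    · have h7 := h5 (x j + ρ i₀) (by have := hx0 j; have := hρ0 i₀; linarith)
        (by rw [hxj]; linarith)
      have h8 : x - Pi.single i η + Pi.single j (ρ i₀) =
          Function.update (x - Pi.single i η + Pi.single j (ρ i)) j (x j + ρ i₀) := by
        funext a
        by_cases haj : a = j
        · subst haj
          rw [Function.update_self]
          simp only [Pi.add_apply, Pi.sub_apply]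
          rw [Pi.single_eq_same, Pi.single_eq_of_ne hne.symm]
          ring
        · rw [Function.update_of_ne haj]
          simp only [Pi.add_apply, Pi.sub_apply]
          rw [Pi.single_eq_of_ne haj, Pi.single_eq_of_ne haj]
      rw [h8]
      exact interior_subset h7
  exact ⟨ρ i₀, hρ0 i₀, fun x hx hx0 i j _ hij hi _ => hsplit x hx hx0 i j hij hi⟩

/-- **Unconditional bodies with interchangeable coordinates**, with the space `ι → ℝ`. -/
theorem unc_blocks [Fintype R] [DecidableEq R] (β : ι → R) (hβ : Function.Surjective β)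
    (hsum : ∑ b, (1 / 2 : ℝ) ^ (univ.filter (fun j => β j = b)).card ≤ 1)
    (K : Set (ι → ℝ)) (hK : Convex ℝ K) (hKc : IsCompact K)
    (hKi : (interior K).Nonempty) (hu : Unc K)
    (hsym : ∀ x ∈ K, ∀ i j, β i = β j → x ∘ Equiv.swap i j ∈ K) :
    ∃ T : Finset (ι → ℝ), T.card ≤ 2 ^ Fintype.card ι ∧
      K ⊆ ⋃ t ∈ T, (fun x => t + x) '' interior K := by
  have h0 : (0 : ι → ℝ) ∈ interior K := by
    obtain ⟨x, hx⟩ := hKi
    have h1 : -x ∈ K := hu x (interior_subset hx) _ fun i => by rw [Pi.neg_apply, abs_neg]
    have h2 := hK.combo_interior_self_mem_interior hx h1 (show (0 : ℝ) < 1 / 2 by norm_num)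
      (show (0 : ℝ) ≤ 1 / 2 by norm_num) (by norm_num)
    rwa [smul_neg, add_neg_cancel] at h2
  have hgauge : ∀ x : ι → ℝ, ∀ j, gauge (Metric.closedBall (0 : ℝ) 1) (x j) = |x j| := by
    intro x j
    rw [gauge_closedBall zero_le_one, div_one, Real.norm_eq_abs]
  have hK' : K = {x : ι → ℝ | (fun j => gauge (Metric.closedBall (0 : ℝ) 1) (x j)) ∈ K} := by
    ext x
    simp only [Set.mem_ofPred_eq]
    have e : (fun j => gauge (Metric.closedBall (0 : ℝ) 1) (x j)) = fun j => |x j| :=
      funext fun j => hgauge x j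
    rw [e]
    exact ⟨fun h => hu x h _ fun i => abs_abs _, fun h => hu _ h _ fun i => (abs_abs _).symm⟩
  have h := balanced (fun _ : ι => Metric.closedBall (0 : ℝ) 1)
    (fun _ => convex_closedBall _ _) (fun _ => isCompact_closedBall _ _)
    (fun _ => by rw [interior_closedBall _ one_ne_zero]; simp) β hβ (fun _ => 2)
    (fun _ => le_rfl) (by
      refine le_trans (le_of_eq ?_) hsum
      refine sum_congr rfl fun b _ => ?_
      rw [prod_const]
      norm_num)
    (fun _ => interval_cov) K hK hKc.isClosed h0 (sol_of_unc hK hu)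
    (bal_of_swap hK (sol_of_unc hK hu) hsym) K hK' hKc.isBounded
  obtain ⟨T, hT, hT2⟩ := h.2.2.2
  refine ⟨T, ?_, hT2⟩
  rwa [Finset.prod_const, Finset.card_univ] at hT

end Pool.Agent.Run7.h414.HC
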